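import Pool.Agent.Helper88.CG.Goals

set_option autoImplicit false

/-!
# MP_69be96_nt: the total weight of the primes (packet CG-A1 of helper88)
-/

namespace Pool.Agent.Helper61.CG

open Finset Filter Asymptotics
open Pool.Agent.Helper88.CG

theorem tw_nonneg (x n : ℕ) : 0 ≤ tw x n := le_max_left _ _

theorem pw_nonneg {x : ℕ} (n : ℕ) : 0 ≤ pw x n := by
  unfold pw
  split_ifs
  · apply mul_nonneg (tw_nonneg x n)
    exact div_nonneg (Real.log_natCast_nonneg n) (Real.log_natCast_nonneg x)
  · exact le_refl _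

theorem tw_ge {x p : ℕ} (hx : 0 < x) (h1 : (x : ℝ) / 8 < p) (h2 : (p : ℝ) ≤ x / 2) :
    1 / 2 ≤ tw x p := by
  have hx' : (0 : ℝ) < x := by exact_mod_cast hx
  have hp : (0 : ℝ) < p := lt_trans (by positivity) h1
  have hl2 : 0 < Real.log 2 := Real.log_pos (by norm_num)
  have hl4 : Real.log 4 = 2 * Real.log 2 := by
    rw [show (4 : ℝ) = 2 ^ 2 by norm_num, Real.log_pow]
    push_cast
    ring
  have hab : |Real.log (4 * p / x)| ≤ Real.log 2 := by
    rw [abs_le]
    constructor
    · rw [← Real.log_inv]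
      apply Real.log_le_log (by norm_num)
      rw [le_div_iff₀ hx']
      linarith
    · apply Real.log_le_log (by positivity)
      rw [div_le_iff₀ hx']
      linarith
  unfold tw
  refine le_trans ?_ (le_max_right _ _)
  have h3 : |Real.log (4 * p / x)| / Real.log 4 ≤ 1 / 2 := by
    rw [hl4, div_le_iff₀ (by positivity)]
    linarith
  linarith

theorem large : ∃ X : ℝ, 2000 ≤ X ∧ ∀ x : ℝ, X ≤ x →
    2 * √x * Real.log x ≤ x / 500 ∧ Real.log (x + 2) ≤ x / 500 ∧
    Real.log x ^ 2 ≤ x / 1000 := by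
  have h := (isLittleO_log_rpow_atTop (r := 1 / 2) (by norm_num)).bound
    (c := 1 / 1000) (by norm_num)
  obtain ⟨X, hX⟩ := eventually_atTop.1 h
  refine ⟨max X 2000, le_max_right _ _, fun x hx => ?_⟩
  have h1 := hX x ((le_max_left _ _).trans hx)
  have h2 : 2000 ≤ x := (le_max_right _ _).trans hx
  have hx0 : 0 < x := by linarith
  have hl : 0 ≤ Real.log x := Real.log_nonneg (by linarith)
  rw [← Real.sqrt_eq_rpow, Real.norm_of_nonneg hl, Real.norm_of_nonneg (Real.sqrt_nonneg _)] at h1
  have hs : √x * √x = x := Real.mul_self_sqrt hx0.le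
  have hs0 : 0 ≤ √x := Real.sqrt_nonneg _
  have hs1 : √x ≤ x := by
    rw [Real.sqrt_le_left hx0.le]
    nlinarith
  refine ⟨?_, ?_, ?_⟩
  · nlinarith
  · have h3 : Real.log (x + 2) ≤ 2 * Real.log x := by
      rw [← Real.log_rpow hx0]
      apply Real.log_le_log (by linarith)
      rw [Real.rpow_two]
      nlinarith
    linarith
  · nlinarith

theorem a1 : StmtA1 := by
  obtain ⟨X, hX2, hX⟩ := large
  refine ⟨1 / 20, by norm_num, ⌈2 * X + 100⌉₊, fun x hx j hj => ?_⟩
  have hx1 : 2 * X + 100 ≤ x := (Nat.le_ceil _).trans (by exact_mod_cast hx)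
  have hx0 : (0 : ℝ) < x := by linarith
  have hxn : 0 < x := by exact_mod_cast hx0
  have hlx : 0 < Real.log x := Real.log_pos (by linarith)
  obtain ⟨g1, g2, g3⟩ := hX x (by linarith)
  set A := x / 8 with hA
  set B := x / 2 with hB
  have hA1 : (x : ℝ) / 8 < A + 1 := by
    have : x < 8 * (A + 1) := by omega
    have h : (x : ℝ) < 8 * (A + 1) := by exact_mod_cast this
    linarith
  have hA2 : (A : ℝ) ≤ x / 8 := by
    have : 8 * A ≤ x := by omega
    have h : 8 * (A : ℝ) ≤ x := by exact_mod_cast this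
    linarith
  have hB1 : (x : ℝ) / 2 < B + 1 := by
    have : x < 2 * (B + 1) := by omega
    have h : (x : ℝ) < 2 * (B + 1) := by exact_mod_cast this
    linarith
  have hB2 : (B : ℝ) ≤ x / 2 := by
    have : 2 * B ≤ x := by omega
    have h : 2 * (B : ℝ) ≤ x := by exact_mod_cast this
    linarith
  have hBX : X ≤ (B : ℝ) := by linarith
  obtain ⟨f1, f2, f3⟩ := hX B hBX
  -- the shift
  have hj1 : j ≤ x / 32 := by
    have h1 : (j : ℝ) ≤ x / 32 := by linarith
    rw [Nat.le_div_iff_mul_le (by norm_num)]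
    have h2 : (j : ℝ) * 32 ≤ x := by linarith
    exact_mod_cast h2
  have hsub : Ioc A B ⊆ Ioc (x / 32 + j) (x + j) := by
    intro m hm
    rw [mem_Ioc] at hm ⊢
    omega
  have hshift : ∑ n ∈ Ioc (x / 32) x, pw x (n + j) = ∑ m ∈ Ioc (x / 32 + j) (x + j), pw x m := by
    rw [← Finset.map_add_right_Ioc, sum_map]
    rfl
  rw [hshift]
  refine le_trans ?_ (sum_le_sum_of_subset_of_nonneg hsub (fun m _ _ => pw_nonneg m))
  -- theta
  have hθ : Chebyshev.theta B - Chebyshev.theta A =
      ∑ p ∈ Ioc A B with p.Prime, Real.log p := by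
    have hAB : A ≤ B := by omega
    unfold Chebyshev.theta
    rw [Nat.floor_natCast, Nat.floor_natCast, sub_eq_iff_eq_add]
    rw [← Finset.Ioc_union_Ioc_eq_Ioc (Nat.zero_le A) hAB, Finset.filter_union,
      Finset.sum_union]
    · ring
    · apply Finset.disjoint_filter_filter
      rw [Finset.disjoint_left]
      intro a ha hb
      rw [mem_Ioc] at ha hb
      omega
  have hpw : (Chebyshev.theta B - Chebyshev.theta A) * (1 / (2 * Real.log x)) ≤
      ∑ m ∈ Ioc A B, pw x m := by
    rw [hθ, sum_mul, sum_filter]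
    apply sum_le_sum
    intro p hp
    rw [mem_Ioc] at hp
    have hp1 : (x : ℝ) / 8 < p := by
      have : (A : ℝ) + 1 ≤ p := by exact_mod_cast hp.1
      linarith
    have hp2 : (p : ℝ) ≤ x / 2 := by
      have : (p : ℝ) ≤ B := by exact_mod_cast hp.2
      linarith
    unfold pw
    split_ifs
    · have h1 := tw_ge hxn hp1 hp2
      have h2 : 0 ≤ Real.log p / Real.log x :=
        div_nonneg (Real.log_natCast_nonneg p) hlx.le
      calc Real.log p * (1 / (2 * Real.log x)) = 1 / 2 * (Real.log p / Real.log x) := by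
            field_simp
        _ ≤ tw x p * (Real.log p / Real.log x) := mul_le_mul_of_nonneg_right h1 h2
    · exact le_refl _
  refine le_trans ?_ hpw
  have hl2a : 0.6931471803 < Real.log 2 := Real.log_two_gt_d9
  have hl2b : Real.log 2 < 0.6931471808 := Real.log_two_lt_d9
  have hlow := Chebyshev.theta_ge' (x := (B : ℝ)) (by linarith)
  have hupp := Chebyshev.theta_le_log4_mul_x (x := (A : ℝ)) (by positivity)
  have hl4 : Real.log 4 = 2 * Real.log 2 := by
    rw [show (4 : ℝ) = 2 ^ 2 by norm_num, Real.log_pow]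
    push_cast
    ring
  have hd : (x : ℝ) / 10 ≤ Chebyshev.theta B - Chebyshev.theta A := by
    have e1 : (B - 1 : ℝ) * 0.693 ≤ (B - 1) * Real.log 2 := by
      apply mul_le_mul_of_nonneg_left _ (by linarith)
      linarith
    have e2 : Real.log 4 * (A : ℝ) ≤ 1.3863 * (x / 8) := by
      apply mul_le_mul _ hA2 (by positivity) (by norm_num)
      rw [hl4]
      linarith
    linarith
  calc 1 / 20 * ((x : ℝ) / Real.log x) = (x / 10) * (1 / (2 * Real.log x)) := by
        field_simp
        norm_num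
    _ ≤ _ := mul_le_mul_of_nonneg_right hd (by positivity)

end Pool.Agent.Helper61.CG

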